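import Pool.Agent.H64.STAT.Rows
import Pool.Agent.H45.KAL.CIL

/-!
# The choice of a label for every block (row POP)
-/

set_option autoImplicit false

namespace Pool.STAT

open Finset
open Pool.Agent.H49.Ent Pool.Agent.H32.Dense Pool.STK Pool.KS3
open Pool.BFL (Pl CB Pb P2 MC alt)

section

variable {W B I O : Type} [Fintype W]

/-- A directed cut. -/
theorem pop_cut (x x' : W → B) (g : W → ℝ) (hg : ∀ w, 0 ≤ g w)
    (hne : ∀ w, g w ≠ 0 → x w ≠ x' w) :
    ∃ A : Set B, (1 / 4 : ℝ) * ∑ w, g w ≤
      ∑ w, (open Classical in if x w ∈ A ∧ x' w ∉ A then g w else 0) := by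
  classical
  set S : Finset B := univ.image x ∪ univ.image x' with hS
  by_contra hcon
  push Not at hcon
  have h1 : ∀ A ∈ S.powerset, ∑ w, (if x w ∈ A ∧ x' w ∉ A then g w else 0) <
      (1 / 4 : ℝ) * ∑ w, g w := by
    intro A _
    have := hcon (A : Set B)
    simpa using this
  have h2 : ∑ A ∈ S.powerset, ∑ w, (if x w ∈ A ∧ x' w ∉ A then g w else 0) <
      ∑ _A ∈ S.powerset, (1 / 4 : ℝ) * ∑ w, g w :=
    Finset.sum_lt_sum_of_nonempty ⟨∅, empty_mem_powerset S⟩ h1
  rw [Finset.sum_comm, Finset.sum_const, card_powerset, nsmul_eq_mul] at h2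
  have h3 : ∀ w, (2 ^ S.card / 4 : ℝ) * g w ≤
      ∑ A ∈ S.powerset, (if x w ∈ A ∧ x' w ∉ A then g w else 0) := by
    intro w
    by_cases h0 : g w = 0
    · rw [h0, mul_zero]
      exact Finset.sum_nonneg fun A _ => by split_ifs <;> simp
    have hx : x w ∈ S := by
      rw [hS, mem_union]
      exact Or.inl (mem_image_of_mem x (mem_univ w))
    have hx' : x' w ∈ S := by
      rw [hS, mem_union]
      exact Or.inr (mem_image_of_mem x' (mem_univ w))
    have hxx := hne w h0
    rw [← Finset.sum_filter, Finset.sum_const, nsmul_eq_mul]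
    refine mul_le_mul_of_nonneg_right ?_ (hg w)
    have hcard : (((S.erase (x w)).erase (x' w)).powerset).card ≤
        (S.powerset.filter fun A => x w ∈ A ∧ x' w ∉ A).card := by
      refine Finset.card_le_card_of_injOn (fun A => insert (x w) A) ?_ ?_
      · intro A hA
        have hA' : A ⊆ (S.erase (x w)).erase (x' w) := mem_powerset.1 (mem_coe.1 hA)
        refine mem_coe.2 (mem_filter.2 ⟨mem_powerset.2 ?_, mem_insert_self _ _, ?_⟩)
        · intro b hb
          rcases mem_insert.1 hb with h | h
          · rw [h]; exact hx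
          · exact mem_of_mem_erase (mem_of_mem_erase (hA' h))
        · intro hb
          rcases mem_insert.1 hb with h | h
          · exact hxx h.symm
          · exact (notMem_erase _ _) (hA' h)
      · intro A hA A' hA' e
        have hA1 : A ⊆ (S.erase (x w)).erase (x' w) := mem_powerset.1 (mem_coe.1 hA)
        have hA2 : A' ⊆ (S.erase (x w)).erase (x' w) := mem_powerset.1 (mem_coe.1 hA')
        have n1 : x w ∉ A := fun h => (notMem_erase _ _) (mem_of_mem_erase (hA1 h))
        have n2 : x w ∉ A' := fun h => (notMem_erase _ _) (mem_of_mem_erase (hA2 h))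
        have e' : insert (x w) A = insert (x w) A' := e
        rw [← erase_insert n1, e', erase_insert n2]
    have hc : ((S.erase (x w)).erase (x' w)).card + 2 = S.card := by
      rw [card_erase_of_mem (mem_erase.2 ⟨hxx.symm, hx'⟩), card_erase_of_mem hx]
      have : 2 ≤ S.card := by
        have h4 : ({x w, x' w} : Finset B) ⊆ S := by
          intro b hb
          rcases mem_insert.1 hb with h | h
          · rw [h]; exact hx
          · rw [mem_singleton.1 h]; exact hx'
        have h5 := card_le_card h4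
        rwa [card_pair hxx] at h5
      omega
    rw [card_powerset] at hcard
    have h6 : (2 : ℝ) ^ S.card / 4 = 2 ^ ((S.erase (x w)).erase (x' w)).card := by
      rw [← hc, pow_add]
      norm_num
    rw [h6]
    exact_mod_cast hcard
  have h4 : (2 ^ S.card / 4 : ℝ) * ∑ w, g w ≤
      ∑ w, ∑ A ∈ S.powerset, (if x w ∈ A ∧ x' w ∉ A then g w else 0) := by
    rw [Finset.mul_sum]
    exact Finset.sum_le_sum fun w _ => h3 w
  have h5 : ((2 ^ S.card : ℕ) : ℝ) * (1 / 4 * ∑ w, g w) = (2 ^ S.card / 4 : ℝ) * ∑ w, g w := by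
    push_cast
    ring
  rw [h5] at h2
  exact absurd h2 (not_lt.2 h4)

/-- The conditional probability that the label of a copy fits. -/
noncomputable def pfit (q : W → ℝ) (x : W → B) (ι : W → I) (R : B → I → O → Prop) (b : B)
    (o : O) : ℝ :=
  (∑ v, (open Classical in if x v = b ∧ R b (ι v) o then q v else 0)) / law q x b

theorem pfit_nonneg {q : W → ℝ} (hq : IsLaw q) (x : W → B) (ι : W → I) (R : B → I → O → Prop)
    (b : B) (o : O) : 0 ≤ pfit q x ι R b o := by
  classical
  unfold pfit
  refine div_nonneg (Finset.sum_nonneg fun v _ => ?_) (law_nonneg hq.nonneg _ _)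
  split_ifs
  · exact hq.nonneg v
  · exact le_rfl

/-- A conditionally independent pair is dominated by a pair of copies. -/
theorem pop_pair {q : W → ℝ} (hq : IsLaw q) {ι : W → I} {o : W → O} {x : W → B}
    (h : CI q ι o x) (Φ : I → O → B → ℝ) (hΦ : ∀ i a b, 0 ≤ Φ i a b) :
    ∑ w, q w * Φ (ι w) (o w) (x w) ≤ ∑ w, ∑ v,
      (open Classical in if x v = x w then q w * q v / law q x (x w) * Φ (ι v) (o w) (x w)
        else 0) := by
  classical
  set val : W → I × (O × B) := fun w => (ι w, (o w, x w)) with hval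
  have e1 : ∑ w, q w * Φ (ι w) (o w) (x w) =
      ∑ c ∈ univ.image val, law q val c * Φ c.1 c.2.1 c.2.2 := by
    rw [← Finset.sum_fiberwise_of_maps_to (s := univ) (t := univ.image val) (g := val)
      (fun w _ => mem_image_of_mem val (mem_univ w))]
    refine Finset.sum_congr rfl fun c _ => ?_
    unfold law
    rw [Finset.sum_mul, Finset.sum_filter]
    refine Finset.sum_congr rfl fun w _ => ?_
    by_cases hw : val w = c
    · rw [if_pos hw, if_pos hw, ← hw]
    · rw [if_neg hw, if_neg hw, zero_mul]
  have e2 : ∀ c ∈ univ.image val, law q val c * Φ c.1 c.2.1 c.2.2 ≤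
      ∑ w, ∑ v, if (ι v, (o w, x w)) = c ∧ x v = x w then
        q w * q v / law q x (x w) * Φ (ι v) (o w) (x w) else 0 := by
    rintro ⟨i, a, b⟩ -
    have hle := h.law_le hq i a b
    have h1 : law q val (i, (a, b)) * law q x b ≤
        law q (fun ω => (ι ω, x ω)) (i, b) * law q (fun ω => (o ω, x ω)) (a, b) := hle
    have h2 : law q val (i, (a, b)) ≤
        law q (fun ω => (ι ω, x ω)) (i, b) * law q (fun ω => (o ω, x ω)) (a, b) / law q x b := by
      rcases (law_nonneg hq.nonneg x b).eq_or_lt with h0 | h0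
      · rw [← h0, div_zero]
        have : law q val (i, (a, b)) ≤ law q x b := by
          unfold law
          refine Finset.sum_le_sum fun w _ => ?_
          by_cases hw : val w = (i, (a, b))
          · have : x w = b := by
              simp only [hval, Prod.mk.injEq] at hw
              exact hw.2.2
            rw [if_pos hw, if_pos this]
          · rw [if_neg hw]
            split_ifs
            · exact hq.nonneg w
            · exact le_rfl
        rw [← h0] at this
        exact this
      · rw [le_div_iff₀ h0]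
        exact h1
    have h3 : law q (fun ω => (ι ω, x ω)) (i, b) * law q (fun ω => (o ω, x ω)) (a, b) /
        law q x b * Φ i a b = ∑ w, ∑ v, if (ι v, (o w, x w)) = (i, (a, b)) ∧ x v = x w then
        q w * q v / law q x (x w) * Φ (ι v) (o w) (x w) else 0 := by
      have l1 : law q (fun ω => (ι ω, x ω)) (i, b) =
        ∑ v, if (ι v, x v) = (i, b) then q v else 0 := by
        unfold law
        exact Finset.sum_congr rfl fun v _ => by congr
      have l2 : law q (fun ω => (o ω, x ω)) (a, b) =
        ∑ w, if (o w, x w) = (a, b) then q w else 0 := by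
        unfold law
        exact Finset.sum_congr rfl fun v _ => by congr
      rw [l1, l2, mul_comm (∑ v, if (ι v, x v) = (i, b) then q v else 0), Finset.sum_mul_sum,
        Finset.sum_div, Finset.sum_mul]
      refine Finset.sum_congr rfl fun w _ => ?_
      rw [Finset.sum_div, Finset.sum_mul]
      refine Finset.sum_congr rfl fun v _ => ?_
      by_cases hw : (o w, x w) = (a, b)
      · by_cases hv : (ι v, x v) = (i, b)
        · simp only [Prod.mk.injEq] at hw hv
          rw [if_pos (by rw [hw.1, hw.2]), if_pos (by rw [hv.1, hv.2]),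
            if_pos ⟨by rw [hv.1, hw.1, hw.2], by rw [hv.2, hw.2]⟩, hw.1, hw.2, hv.1]
        · rw [if_neg hv, mul_zero, zero_div, zero_mul, if_neg]
          rintro ⟨h4, h5⟩
          simp only [Prod.mk.injEq] at h4 hw hv
          exact hv ⟨h4.1, h5.trans hw.2⟩
      · rw [if_neg hw, zero_mul, zero_div, zero_mul, if_neg]
        rintro ⟨h4, -⟩
        simp only [Prod.mk.injEq] at h4 hw
        exact hw ⟨h4.2.1, h4.2.2⟩
    rw [← h3]
    exact mul_le_mul_of_nonneg_right h2 (hΦ _ _ _)
  rw [e1]
  refine (Finset.sum_le_sum e2).trans ?_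
  rw [Finset.sum_comm]
  refine Finset.sum_le_sum fun w _ => ?_
  rw [Finset.sum_comm]
  refine Finset.sum_le_sum fun v _ => ?_
  by_cases hv : x v = x w
  · rw [if_pos hv]
    have h0 : 0 ≤ q w * q v / law q x (x w) * Φ (ι v) (o w) (x w) :=
      mul_nonneg (div_nonneg (mul_nonneg (hq.nonneg w) (hq.nonneg v))
        (law_nonneg hq.nonneg _ _)) (hΦ _ _ _)
    have h4 : ∑ c ∈ univ.image val, (if (ι v, (o w, x w)) = c ∧ x v = x w then
        q w * q v / law q x (x w) * Φ (ι v) (o w) (x w) else 0) =
        ∑ c ∈ univ.image val, (if (ι v, (o w, x w)) = c then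
        q w * q v / law q x (x w) * Φ (ι v) (o w) (x w) else 0) := by
      refine Finset.sum_congr rfl fun c _ => ?_
      simp only [hv, and_true]
    rw [h4, Finset.sum_ite_eq]
    split_ifs
    · exact le_rfl
    · exact h0
  · rw [if_neg hv]
    refine le_of_eq (Finset.sum_eq_zero fun c _ => ?_)
    rw [if_neg]
    exact fun h5 => hv h5.2

/-- The label fits, but a copy fits with small probability only: small probability. -/
theorem pop_bad {q : W → ℝ} (hq : IsLaw q) {ι : W → I} {o : W → O} {x : W → B}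
    (h : CI q ι o x) (R : B → I → O → Prop) {ε : ℝ} (hε : 0 ≤ ε) :
    Pb q (fun w => R (x w) (ι w) (o w) ∧ pfit q x ι R (x w) (o w) < ε) ≤ ε := by
  classical
  have h1 := pop_pair hq h (fun i a b => if R b i a ∧ pfit q x ι R b a < ε then 1 else 0)
    (fun i a b => by split_ifs <;> norm_num)
  have e1 : Pb q (fun w => R (x w) (ι w) (o w) ∧ pfit q x ι R (x w) (o w) < ε) =
      ∑ w, q w * (if R (x w) (ι w) (o w) ∧ pfit q x ι R (x w) (o w) < ε then 1 else 0) := by
    unfold Pb
    refine Finset.sum_congr rfl fun w _ => ?_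
    split_ifs <;> simp
  rw [e1]
  refine h1.trans ?_
  have e2 : ∀ w, (∑ v, if x v = x w then q w * q v / law q x (x w) *
      (if R (x w) (ι v) (o w) ∧ pfit q x ι R (x w) (o w) < ε then (1 : ℝ) else 0) else (0 : ℝ)) ≤
      q w * ε := by
    intro w
    by_cases hw : pfit q x ι R (x w) (o w) < ε
    · have e3 : (∑ v, if x v = x w then q w * q v / law q x (x w) *
          (if R (x w) (ι v) (o w) ∧ pfit q x ι R (x w) (o w) < ε then (1 : ℝ) else 0)
            else (0 : ℝ)) = q w * pfit q x ι R (x w) (o w) := by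
        have e4 : pfit q x ι R (x w) (o w) =
          (∑ v, if x v = x w ∧ R (x w) (ι v) (o w) then q v else 0) / law q x (x w) := rfl
        conv_rhs => rw [e4, mul_div_assoc', Finset.mul_sum, Finset.sum_div]
        refine Finset.sum_congr rfl fun v _ => ?_
        by_cases hv : x v = x w
        · by_cases hR : R (x w) (ι v) (o w)
          · rw [if_pos hv, if_pos ⟨hR, hw⟩, if_pos ⟨hv, hR⟩, mul_one]
          · rw [if_pos hv, if_neg (fun h : _ ∧ _ => hR h.1),
              if_neg (fun h : x v = x w ∧ R (x w) (ι v) (o w) => hR h.2), mul_zero,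
              mul_zero, zero_div]
        · rw [if_neg hv, if_neg (fun h : x v = x w ∧ R (x w) (ι v) (o w) => hv h.1), mul_zero,
            zero_div]
      rw [e3]
      exact mul_le_mul_of_nonneg_left hw.le (hq.nonneg w)
    · have : (∑ v, if x v = x w then q w * q v / law q x (x w) *
          (if R (x w) (ι v) (o w) ∧ pfit q x ι R (x w) (o w) < ε then (1 : ℝ) else 0)
            else (0 : ℝ)) = 0 := by
        refine Finset.sum_eq_zero fun v _ => ?_
        rw [if_neg (fun h : R (x w) (ι v) (o w) ∧ pfit q x ι R (x w) (o w) < ε => hw h.2),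
          mul_zero]
        split_ifs <;> rfl
      rw [this]
      exact mul_nonneg (hq.nonneg w) hε
  refine (Finset.sum_le_sum fun w _ => e2 w).trans ?_
  rw [← Finset.sum_mul, hq.sum_one, one_mul]

/-- The choice of a label for every block. -/
theorem pop_choose {q : W → ℝ} (hq : IsLaw q) (ι : W → I) (o : W → O) (x : W → B)
    (R : B → I → O → Prop) (g : W → ℝ) (hg : ∀ w, 0 ≤ g w) (hgq : ∀ w, g w ≠ 0 → q w ≠ 0)
    {ε : ℝ} (hf : ∀ w, g w ≠ 0 → ε ≤ pfit q x ι R (x w) (o w)) :
    ∃ h : B → I, ε * ∑ w, g w ≤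
      ∑ w, (open Classical in if R (x w) (h (x w)) (o w) then g w else 0) := by
  classical
  have hW : Nonempty W := by
    by_contra hn
    rw [not_nonempty_iff] at hn
    have := hq.sum_one
    simp at this
  have hI : Nonempty I := ⟨ι hW.some⟩
  have key : ∀ b : B, ∃ i : I, ε * ∑ w, (if x w = b then g w else 0) ≤
      ∑ w, (if x w = b then (if R b i (o w) then g w else 0) else 0) := by
    intro b
    by_cases h0 : ∀ w, x w = b → g w = 0
    · refine ⟨hI.some, ?_⟩
      have e1 : ∑ w, (if x w = b then g w else 0) = 0 :=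
        Finset.sum_eq_zero fun w _ => by
          split_ifs with h
          · exact h0 w h
          · rfl
      rw [e1, mul_zero]
      refine Finset.sum_nonneg fun w _ => ?_
      split_ifs
      · exact hg w
      · exact le_rfl
      · exact le_rfl
    push Not at h0
    obtain ⟨w₀, hw₀, hg₀⟩ := h0
    have hlb : 0 < law q x b := by
      rw [← hw₀]
      exact law_pos hq.nonneg _ (lt_of_le_of_ne (hq.nonneg w₀) (hgq w₀ hg₀).symm)
    by_contra hcon
    push Not at hcon
    -- average over the copies
    have e1 : ∑ v, (if x v = b then q v / law q x b *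
        ∑ w, (if x w = b then (if R b (ι v) (o w) then g w else 0) else 0) else 0) =
        ∑ w, (if x w = b then g w * pfit q x ι R b (o w) else 0) := by
      have e2 : ∀ v, (if x v = b then q v / law q x b *
          ∑ w, (if x w = b then (if R b (ι v) (o w) then g w else 0) else 0) else 0) =
          ∑ w, (if x w = b then g w * ((if x v = b ∧ R b (ι v) (o w) then q v else 0) /
            law q x b) else 0) := by
        intro v
        by_cases hv : x v = b
        · rw [if_pos hv, Finset.mul_sum]
          refine Finset.sum_congr rfl fun w _ => ?_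
          by_cases hw : x w = b
          · by_cases hR : R b (ι v) (o w)
            · rw [if_pos hw, if_pos hR, if_pos hw, if_pos ⟨hv, hR⟩]
              ring
            · rw [if_pos hw, if_neg hR, if_pos hw,
                if_neg (fun h : x v = b ∧ R b (ι v) (o w) => hR h.2)]
              ring
          · rw [if_neg hw, if_neg hw, mul_zero]
        · rw [if_neg hv]
          refine (Finset.sum_eq_zero fun w _ => ?_).symm
          rw [if_neg (fun h : x v = b ∧ R b (ι v) (o w) => hv h.1)]
          simp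
      rw [Finset.sum_congr rfl fun v _ => e2 v, Finset.sum_comm]
      refine Finset.sum_congr rfl fun w _ => ?_
      by_cases hw : x w = b
      · simp only [if_pos hw]
        unfold pfit
        rw [← Finset.mul_sum, ← Finset.sum_div]
      · simp only [if_neg hw, Finset.sum_const_zero]
    have e3 : ε * ∑ w, (if x w = b then g w else 0) ≤
        ∑ w, (if x w = b then g w * pfit q x ι R b (o w) else 0) := by
      rw [Finset.mul_sum]
      refine Finset.sum_le_sum fun w _ => ?_
      by_cases hw : x w = b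
      · rw [if_pos hw, if_pos hw]
        by_cases hgw : g w = 0
        · rw [hgw, mul_zero, zero_mul]
        · have := hf w hgw
          rw [hw] at this
          rw [mul_comm]
          exact mul_le_mul_of_nonneg_left this (hg w)
      · rw [if_neg hw, if_neg hw, mul_zero]
    have e4 : ∑ v, (if x v = b then q v / law q x b *
        ∑ w, (if x w = b then (if R b (ι v) (o w) then g w else 0) else 0) else 0) <
        ∑ v, (if x v = b then q v / law q x b *
          (ε * ∑ w, (if x w = b then g w else 0)) else 0) := by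
      refine Finset.sum_lt_sum (fun v _ => ?_) ⟨w₀, mem_univ _, ?_⟩
      · by_cases hv : x v = b
        · rw [if_pos hv, if_pos hv]
          exact mul_le_mul_of_nonneg_left (hcon (ι v)).le (div_nonneg (hq.nonneg v) hlb.le)
        · rw [if_neg hv, if_neg hv]
      · rw [if_pos hw₀, if_pos hw₀]
        refine mul_lt_mul_of_pos_left (hcon (ι w₀)) (div_pos ?_ hlb)
        exact lt_of_le_of_ne (hq.nonneg w₀) (hgq w₀ hg₀).symm
    have e5 : ∑ v, (if x v = b then q v / law q x b *
        (ε * ∑ w, (if x w = b then g w else 0)) else 0) =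
        ε * ∑ w, (if x w = b then g w else 0) := by
      have e6 : ∀ v, (if x v = b then q v / law q x b *
          (ε * ∑ w, (if x w = b then g w else 0)) else 0) =
          (if x v = b then q v else 0) * ((ε * ∑ w, (if x w = b then g w else 0)) /
            law q x b) := by
        intro v
        split_ifs <;> ring
      rw [Finset.sum_congr rfl fun v _ => e6 v, ← Finset.sum_mul]
      have e7 : ∑ v, (if x v = b then q v else 0) = law q x b := rfl
      rw [e7, mul_div_cancel₀]
      exact hlb.ne'
    rw [e5, e1] at e4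
    exact absurd e4 (not_lt.2 e3)
  choose h hh using key
  refine ⟨h, ?_⟩
  have s1 : ∑ w, g w = ∑ b ∈ univ.image x, ∑ w, (if x w = b then g w else 0) := by
    rw [Finset.sum_comm]
    refine Finset.sum_congr rfl fun w _ => ?_
    rw [Finset.sum_ite_eq, if_pos (mem_image_of_mem x (mem_univ w))]
  have s2 : ∑ w, (if R (x w) (h (x w)) (o w) then g w else 0) =
      ∑ b ∈ univ.image x, ∑ w, (if x w = b then (if R b (h b) (o w) then g w else 0) else 0) := by
    rw [Finset.sum_comm]
    refine Finset.sum_congr rfl fun w _ => ?_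
    rw [Finset.sum_ite_eq, if_pos (mem_image_of_mem x (mem_univ w))]
  rw [s1, s2, Finset.mul_sum]
  exact Finset.sum_le_sum fun b _ => hh b

end

theorem pop_thm : PopStmt := by
  classical
  intro η hη
  refine ⟨min (η / 2) (η ^ 3 / 1024), lt_min (by positivity) (by positivity), ?_⟩
  intro W B I O O' _ q x x' ι ι' o o' R R' E hq hci hci' hE hPE
  have hW : Nonempty W := by
    by_contra hn
    rw [not_nonempty_iff] at hn
    have := hq.sum_one
    simp at this
  obtain ⟨ε, hε⟩ : ∃ ε, ε = η / 8 := ⟨_, rfl⟩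
  have hε0 : 0 ≤ ε := by rw [hε]; positivity
  rcases le_or_gt (η / 2) (Pb q (fun w => E w ∧ x w = x' w)) with hcase | hcase
  · refine ⟨fun _ => ι hW.some, (min_le_left _ _).trans (hcase.trans ?_)⟩
    unfold Pb
    refine Finset.sum_le_sum fun w _ => ?_
    by_cases h : E w ∧ x w = x' w
    · rw [if_pos h, if_pos ⟨h.1, Or.inl h.2⟩]
    · rw [if_neg h]
      split_ifs
      · exact hq.nonneg w
      · exact le_rfl
  -- the good event
  have b1 := pop_bad hq hci R hε0
  have b2 := pop_bad hq hci' R' hε0
  set g₀ : W → ℝ := fun w => if E w ∧ x w ≠ x' w ∧ ε ≤ pfit q x ι R (x w) (o w) ∧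
    ε ≤ pfit q x' ι' R' (x' w) (o' w) then q w else 0 with hg₀
  have hg₀n : ∀ w, 0 ≤ g₀ w := by
    intro w
    simp only [hg₀]
    split_ifs
    · exact hq.nonneg w
    · exact le_rfl
  have hsum : η / 4 ≤ ∑ w, g₀ w := by
    have h1 : Pb q E ≤ Pb q (fun w => E w ∧ x w = x' w) +
        Pb q (fun w => R (x w) (ι w) (o w) ∧ pfit q x ι R (x w) (o w) < ε) +
        Pb q (fun w => R' (x' w) (ι' w) (o' w) ∧ pfit q x' ι' R' (x' w) (o' w) < ε) +
        ∑ w, g₀ w := by
      unfold Pb
      rw [← Finset.sum_add_distrib, ← Finset.sum_add_distrib, ← Finset.sum_add_distrib]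
      refine Finset.sum_le_sum fun w _ => ?_
      have h0 := hq.nonneg w
      have hnn : ∀ P : Prop, 0 ≤ (if P then q w else 0) := by
        intro P
        split_ifs
        · exact h0
        · exact le_rfl
      have a1 := hnn (E w ∧ x w = x' w)
      have a2 := hnn (R (x w) (ι w) (o w) ∧ pfit q x ι R (x w) (o w) < ε)
      have a3 := hnn (R' (x' w) (ι' w) (o' w) ∧ pfit q x' ι' R' (x' w) (o' w) < ε)
      have a4 := hg₀n w
      by_cases hw : E w
      · rw [if_pos hw]
        by_cases c1 : x w = x' w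
        · rw [if_pos ⟨hw, c1⟩] at a1 ⊢
          linarith
        by_cases c2 : pfit q x ι R (x w) (o w) < ε
        · rw [if_pos (⟨(hE w hw).1, c2⟩ : R (x w) (ι w) (o w) ∧ _)] at a2 ⊢
          linarith
        by_cases c3 : pfit q x' ι' R' (x' w) (o' w) < ε
        · rw [if_pos (⟨(hE w hw).2, c3⟩ : R' (x' w) (ι' w) (o' w) ∧ _)] at a3 ⊢
          linarith
        · have e0 : g₀ w = q w := by
            simp only [hg₀]
            rw [if_pos ⟨hw, c1, not_lt.1 c2, not_lt.1 c3⟩]
          rw [e0]
          linarith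
      · rw [if_neg hw]
        linarith
    have h2 : ε + ε = η / 4 := by rw [hε]; ring
    linarith
  obtain ⟨A, hA⟩ := pop_cut x x' g₀ hg₀n (by
    intro w hw
    simp only [hg₀] at hw
    by_contra hc
    apply hw
    rw [if_neg]
    intro h
    exact h.2.1 hc)
  set g₁ : W → ℝ := fun w => if x w ∈ A ∧ x' w ∉ A then g₀ w else 0 with hg₁
  have hg₁n : ∀ w, 0 ≤ g₁ w := by
    intro w
    simp only [hg₁]
    split_ifs
    · exact hg₀n w
    · exact le_rfl
  have hg₁0 : ∀ w, g₁ w ≠ 0 → (x w ∈ A ∧ x' w ∉ A) ∧ E w ∧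
      ε ≤ pfit q x ι R (x w) (o w) ∧ ε ≤ pfit q x' ι' R' (x' w) (o' w) ∧ g₁ w = q w := by
    intro w hw
    have h1 : x w ∈ A ∧ x' w ∉ A := by
      by_contra hc
      apply hw
      simp only [hg₁]
      rw [if_neg hc]
    have h2 : g₁ w = g₀ w := by
      simp only [hg₁]
      rw [if_pos h1]
    have h3 : E w ∧ x w ≠ x' w ∧ ε ≤ pfit q x ι R (x w) (o w) ∧
        ε ≤ pfit q x' ι' R' (x' w) (o' w) := by
      by_contra hc
      apply hw
      rw [h2]
      simp only [hg₀]
      rw [if_neg hc]
    refine ⟨h1, h3.1, h3.2.2.1, h3.2.2.2, ?_⟩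
    rw [h2]
    simp only [hg₀]
    rw [if_pos h3]
  obtain ⟨h₁, hh₁⟩ := pop_choose hq ι o x R g₁ hg₁n
    (fun w hw => by
      obtain ⟨-, -, -, -, h⟩ := hg₁0 w hw
      rw [← h]
      exact hw) (fun w hw => (hg₁0 w hw).2.2.1)
  set g₂ : W → ℝ := fun w => if R (x w) (h₁ (x w)) (o w) then g₁ w else 0 with hg₂
  have hg₂n : ∀ w, 0 ≤ g₂ w := by
    intro w
    simp only [hg₂]
    split_ifs
    · exact hg₁n w
    · exact le_rfl
  have hg₂0 : ∀ w, g₂ w ≠ 0 → R (x w) (h₁ (x w)) (o w) ∧ g₁ w ≠ 0 ∧ g₂ w = g₁ w := by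
    intro w hw
    have h1 : R (x w) (h₁ (x w)) (o w) := by
      by_contra hc
      apply hw
      simp only [hg₂]
      rw [if_neg hc]
    have h2 : g₂ w = g₁ w := by
      simp only [hg₂]
      rw [if_pos h1]
    exact ⟨h1, by rw [← h2]; exact hw, h2⟩
  obtain ⟨h₂, hh₂⟩ := pop_choose hq ι' o' x' R' g₂ hg₂n
    (fun w hw => by
      obtain ⟨-, h3, -⟩ := hg₂0 w hw
      obtain ⟨-, -, -, -, h⟩ := hg₁0 w h3
      rw [← h]
      exact h3) (fun w hw => (hg₁0 w (hg₂0 w hw).2.1).2.2.2.1)
  refine ⟨fun b => if b ∈ A then h₁ b else h₂ b, (min_le_right _ _).trans ?_⟩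
  have t1 : η ^ 3 / 1024 ≤ ε * (ε * (1 / 4 * (η / 4))) := by
    rw [hε]
    have : η / 8 * (η / 8 * (1 / 4 * (η / 4))) = η ^ 3 / 1024 := by ring
    rw [this]
  have t2 : ε * (ε * (1 / 4 * (η / 4))) ≤ ε * (ε * ∑ w, g₁ w) := by
    refine mul_le_mul_of_nonneg_left (mul_le_mul_of_nonneg_left ?_ hε0) hε0
    refine le_trans ?_ hA
    exact mul_le_mul_of_nonneg_left hsum (by norm_num)
  have t3 : ε * (ε * ∑ w, g₁ w) ≤ ε * ∑ w, g₂ w := mul_le_mul_of_nonneg_left hh₁ hε0
  refine t1.trans (t2.trans (t3.trans (hh₂.trans ?_)))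
  unfold Pb
  refine Finset.sum_le_sum fun w _ => ?_
  by_cases hR : R' (x' w) (h₂ (x' w)) (o' w)
  · rw [if_pos hR]
    by_cases hw : g₂ w = 0
    · rw [hw]
      split_ifs
      · exact hq.nonneg w
      · exact le_rfl
    · obtain ⟨r1, r2, r3⟩ := hg₂0 w hw
      obtain ⟨⟨s1, s2⟩, s3, -, -, s4⟩ := hg₁0 w r2
      rw [if_pos, r3, s4]
      refine ⟨s3, Or.inr ⟨?_, ?_⟩⟩
      · show R (x w) (if x w ∈ A then h₁ (x w) else h₂ (x w)) (o w)
        rw [if_pos s1]
        exact r1
      · show R' (x' w) (if x' w ∈ A then h₁ (x' w) else h₂ (x' w)) (o' w)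
        rw [if_neg s2]
        exact hR
  · rw [if_neg hR]
    split_ifs
    · exact hq.nonneg w
    · exact le_rfl

end Pool.STAT
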